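import Pool.Agent.H959Z.OrbCount

set_option autoImplicit false

/-! The conjectured formula for the growth of orbits of cyclic words fails in every rank `k ≥ 3`. -/

namespace Pool.Agent.Results.MP_1babb5_al.AConjectureFails

open Pool.Agent.H959Z.Orb

/-- For `k ≥ 3` and `w` the product of the cubes of the generators, the least positive number of
occurrences of a letter in the orbit is three (for reduced words and for cyclically reduced words),
while the cyclic words of the orbit have growth at least `(2k-3)^(1/2) > (2k-3)^(1/3)`. -/
theorem result (k : ℕ) (hk : 3 ≤ k) (x : Fin k) :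
    IsLeast (occSet (cubes k) x) 3 ∧ IsLeast (cycOccSet (cubes k) x) 3 ∧
      (2 * (k : ℝ) - 3) ^ (1 / 2 : ℝ) ≤ growth (cubes k) ∧
      (2 * (k : ℝ) - 3) ^ (1 / 3 : ℝ) < growth (cubes k) :=
  main k hk x

end Pool.Agent.Results.MP_1babb5_al.AConjectureFails
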